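import Pool.Agent.Lib.MP_b00f94_an.Final

/-!
# MP_b00f94_an : a wavelet set in the real line which does not tile multiplicatively
-/

set_option autoImplicit false

namespace Pool.Agent.Results.MP_b00f94_an.Main

open MeasureTheory Pool.Agent.Lib.MP_b00f94_an

/-- In `G = ℝ` there are a dilation set `A`, a translation set `Λ` with `0 ∉ Λ` and a wavelet set
`Ω` for `(A, Λ)` which tiles `ℝ` multiplicatively, with multiplicity `1`, by no set of
automorphisms. -/
theorem result :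
    ∃ (A : Set (ℝ ≃ₜ+ ℝ)) (Λ Ω : Set ℝ), (0 : ℝ) ∉ Λ ∧ IsWaveletSet A Λ Ω ∧
      ∀ A' : Set (ℝ ≃ₜ+ ℝ), ¬ TilesMult Ω A' 1 :=
  ⟨Set.range dil, Set.range tt, Om, zero_notMem_range_tt, isWaveletSet_Om, not_tilesMult⟩

end Pool.Agent.Results.MP_b00f94_an.Main
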